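import Pool.Agent.Helper38.MR.Defs
import Pool.Agent.Helper52.TC.Spec
import Pool.Agent.Helper68.LP.Pert
import Pool.Agent.Helper68.LP.Short
import Pool.Agent.Helper68.ELP.D12

/-! Statements of the modules for the lower bound on monotone real circuits. Every module proves one
of the `Prop`s named `spec...` below. -/

set_option autoImplicit false

namespace Pool.Agent.Helper38.MR

open Pool.Agent.Helper38.ELP (Good Vset)
open Pool.Agent.Helper68.LP (pert tcost UnitTour tlen padded)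
open Pool.Agent.Helper68.ELP (PN)

/-! ### Part 1: monotone real circuits, cliques and colourings -/

/-- pairs of vertices -/
abbrev Edge (m : ℕ) := {p : Fin m × Fin m // p.1 < p.2}

/-- graphs on the vertices `Fin m` -/
abbrev Graph (m : ℕ) := Edge m → Bool

/-- the complete graph on the vertex set `A` -/
def clq {m : ℕ} (A : Finset (Fin m)) : Graph m := fun e => decide (e.1.1 ∈ A ∧ e.1.2 ∈ A)

/-- the complete multipartite graph of the colouring `c` -/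
def mpt {m : ℕ} {α : Type} [DecidableEq α] (c : Fin m → α) : Graph m :=
  fun e => decide (c e.1.1 ≠ c e.1.2)

/-- number of points minus number of blocks of the partition into the fibres of `c` -/
def rnk {m : ℕ} (c : Fin m → Fin m) : ℕ := m - (Finset.univ.image c).card

/-- lower bounds for the values of `F` have certificates: partitions of rank less than `r` -/
def CertC {m : ℕ} (r : ℕ) (F : Graph m → ℝ) : Prop :=
  ∀ x, ∃ c : Fin m → Fin m, rnk c < r ∧ x ≤ mpt c ∧ F x ≤ F (mpt c)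

/-- upper bounds for the values of `F` have certificates: cliques with less than `s` vertices -/
def CertD {m : ℕ} (s : ℕ) (F : Graph m → ℝ) : Prop :=
  ∀ x, ∃ A : Finset (Fin m), A.card < s ∧ clq A ≤ x ∧ F (clq A) ≤ F x

/-- (P) positive errors -/
def specP : Prop := ∀ (m r s : ℕ) (F₁ F₂ : Graph m → ℝ), 1 ≤ r → Antitone F₁ → Antitone F₂ →
  CertC r F₁ → CertC r F₂ → ∃ 𝓔 : Finset (Finset (Fin m)), 𝓔.card ≤ (4 * r) ^ s ∧
    (∀ A ∈ 𝓔, A.card = s) ∧
    ∀ K : Finset (Fin m), (∀ A ⊆ K, A.card < s → F₁ (clq K) < F₁ (clq A) ∨ F₂ (clq K) < F₂ (clq A)) →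
      ∃ A ∈ 𝓔, A ⊆ K

/-- (N) negative errors -/
def specN : Prop := ∀ (m r s : ℕ) (F₁ F₂ : Graph m → ℝ), Antitone F₁ → Antitone F₂ →
  CertD s F₁ → CertD s F₂ → ∃ 𝓔 : Finset (Fin m → Fin m), 𝓔.card ≤ (2 * s ^ 2) ^ r ∧
    (∀ c ∈ 𝓔, rnk c = r) ∧
    ∀ (l : ℕ) (χ : Fin m → Fin l),
      (∀ c : Fin m → Fin m, rnk c < r → mpt χ ≤ mpt c →
        F₁ (mpt c) < F₁ (mpt χ) ∨ F₂ (mpt c) < F₂ (mpt χ)) →
      ∃ c ∈ 𝓔, mpt χ ≤ mpt c

/-- the vertex set of a transversal -/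
def trv {k q : ℕ} (σ : Fin k → Fin q) : Finset (Fin (k * q)) :=
  Finset.univ.image fun i => finProdFinEquiv (i, σ i)

open Classical in
/-- (CP) counting transversals -/
def specCP : Prop := ∀ (k q : ℕ) (A : Finset (Fin (k * q))),
  (Finset.univ.filter fun σ : Fin k → Fin q => A ⊆ trv σ).card * q ^ A.card ≤ q ^ k

open Classical in
/-- (CN) counting colourings which are constant on the blocks of a partition -/
def specCN : Prop := ∀ (m l : ℕ) (c : Fin m → Fin m),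
  (Finset.univ.filter fun χ : Fin m → Fin l => mpt χ ≤ mpt c).card * l ^ rnk c ≤ l ^ m

open Classical in
/-- (CI) counting colourings which are injective on a small set -/
def specCI : Prop := ∀ (m l : ℕ) (A : Finset (Fin m)), A.card ^ 2 ≤ l →
  l ^ m ≤ 2 * (Finset.univ.filter fun χ : Fin m → Fin l => clq A ≤ mpt χ).card

/-- a function of one edge -/
def Simple {m : ℕ} (f : Graph m → ℝ) : Prop :=
  (∃ a, ∀ x, f x = a) ∨ ∃ (e : Edge m) (a b : ℝ), a ≤ b ∧ ∀ x, f x = if x e = true then a else b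

/-- (CORE) lower bound for monotone real circuits (from P, N, CP, CN, CI) -/
def specCORE : Prop := ∀ (s : ℕ), 3 ≤ s → ∀ (E : Type) (C : List (Gate E))
  (D : E → Graph ((4 * s ^ 2 + 1) * (8 * s)) → ℝ) (θ : ℝ),
  (∀ g ∈ C, g.Mono) → (∀ e, Simple (D e)) →
  (∀ K : Finset (Fin ((4 * s ^ 2 + 1) * (8 * s))), K.card = 4 * s ^ 2 + 1 →
    out (fun e => D e (clq K)) C ≤ θ) →
  (∀ χ : Fin ((4 * s ^ 2 + 1) * (8 * s)) → Fin (4 * s ^ 2),
    θ < out (fun e => D e (mpt χ)) C) →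
  2 ^ s ≤ 2 * C.length

/-! ### Part 2: the array -/

/-- position of the lower end of the top edge which shows the bit `c` (`0 ≤ c < M`, the bits of the
array are numbered `1, ..., M`) -/
def tK (M c : ℕ) : ℕ × ℕ := (10 * (2 * (c + 1) + 1) + 1, 10 * (2 * M + 3) + 1)

/-- (R) the top edges are used when the bit is zero -/
def specR : Prop := ∀ (M : ℕ) (uh uv : ℕ → ℕ → Bool), Good (2 * M + 2) uh uv → ∀ c : ℕ, c < M →
  uv (tK M c).1 (tK M c).2 = !(Pool.Agent.Helper52.TC.rbit uh (c + 1))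

/-- the value of a bit vector -/
def value {M : ℕ} (lin : Fin M → ℤ) (quad : Fin M → Fin M → ℤ) (top : Fin M → ℤ)
    (β : Fin M → Bool) : ℤ :=
  (∑ k, if β k = true then lin k else 0) +
  (∑ k, ∑ l, if k < l ∧ β k = true ∧ β l = true then quad k l else 0) +
  ∑ k, if β k = false then top k else 0

/-- vertical weights with additional weights on the top edges -/
def addTop {M : ℕ} (v : ℕ → ℕ → ℤ) (top : Fin M → ℤ) (x y : ℕ) : ℤ :=
  v x y + ∑ c : Fin M, if (x, y) = tK M c then top c else 0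

/-- (W) weights for an arbitrary quadratic function of the bits -/
def specW : Prop := ∀ (M w : ℕ) (lin : Fin M → ℤ) (quad : Fin M → Fin M → ℤ), 1 ≤ M →
  (∀ k, |lin k| ≤ w) → (∀ k l, |quad k l| ≤ w) →
  ∃ (h v : ℕ → ℕ → ℤ) (m₀ : ℤ), (∀ x y, |h x y| ≤ 10 * (w + 1) * (M + 1) ^ 2) ∧
    (∀ x y, |v x y| ≤ 10 * (w + 1) * (M + 1) ^ 2) ∧
    ∀ top : Fin M → ℤ, (∀ c, 0 ≤ top c ∧ top c ≤ 1) → ∀ K : ℤ,
      10 ^ 5 * ((w : ℤ) + 1) * ((M : ℤ) + 1) ^ 4 ≤ K →
      (∀ β : Fin M → Bool, ∃ σ, UnitTour (PN (2 * M + 2)) σ ∧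
        tcost h (addTop v top) K (PN (2 * M + 2)) σ = m₀ + value lin quad top β) ∧
      ∀ σ, ∃ β : Fin M → Bool,
        m₀ + value lin quad top β ≤ tcost h (addTop v top) K (PN (2 * M + 2)) σ

/-- number of bits for graphs with `m` vertices -/
def nb (m : ℕ) : ℕ := m + m * (m - 1) / 2

/-- the additional weights of a graph: one on every missing edge -/
def topOf {m : ℕ} (ε : Fin m ⊕ Edge m ≃ Fin (nb m)) (x : Graph m) (c : Fin (nb m)) : ℤ :=
  match ε.symm c with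
  | Sum.inl _ => 0
  | Sum.inr e => if x e = true then 0 else 1

/-- (Q) the clique number as the minimum of a quadratic function -/
def specQ : Prop := ∀ m : ℕ, 2 ≤ m → ∃ (ε : Fin m ⊕ Edge m ≃ Fin (nb m)) (lin : Fin (nb m) → ℤ)
  (quad : Fin (nb m) → Fin (nb m) → ℤ) (v₀ : ℤ),
  (∀ k, |lin k| ≤ 4 * m) ∧ (∀ k l, |quad k l| ≤ 4 * m) ∧
  (∀ (x : Graph m) (K : Finset (Fin m)), clq K ≤ x →
    ∃ β, value lin quad (topOf ε x) β = v₀ - K.card) ∧
  ∀ (x : Graph m) (l : ℕ) (χ : Fin m → Fin l), x ≤ mpt χ → ∀ β,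
    v₀ - l ≤ value lin quad (topOf ε x) β

/-! ### Part 3: geometry -/

/-- (G) the distances of the negative instances (scale `L`) are bounded by nonincreasing functions of
one edge, which are bounded by the distances of the positive instances (scale `L + 1`) -/
def specG : Prop := ∀ (n t m N Cb M L : ℕ) (p : Fin n → ℕ × ℕ) (i₀ : Fin n)
  (ε : Fin m ⊕ Edge m ≃ Fin (nb m)) (h v : ℕ → ℕ → ℤ),
  Function.Injective p → (∀ i, (p i).1 ≤ N ∧ (p i).2 ≤ 10 * (2 * nb m + 3) + 2) →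
  10 * (2 * nb m + 3) + 2 ≤ N → (p i₀).2 < 10 * (2 * nb m + 3) + 2 →
  (∀ x y, |h x y| ≤ Cb) → (∀ x y, |v x y| ≤ Cb) → t ≤ L →
  1000 * (N + 1) * (Cb + 1) ≤ M → 1000 * (L + 1) * (N + 1) * (Cb + 1) ≤ M ^ 2 →
  ∃ D : Fin (n + t) × Fin (n + t) → Graph m → ℝ, (∀ e, Simple (D e)) ∧ ∀ e x,
    dst (padded L t i₀ (fun i => pert h (addTop v (topOf ε x)) M (p i)) e.1)
      (padded L t i₀ (fun i => pert h (addTop v (topOf ε x)) M (p i)) e.2) ≤ D e x ∧
    D e x ≤ dst (padded (L + 1) t i₀ (fun i => pert h (addTop v (topOf ε x)) M (p i)) e.1)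
      (padded (L + 1) t i₀ (fun i => pert h (addTop v (topOf ε x)) M (p i)) e.2)

/-- (I) the instances (from W, Q, G and `Short.lean`) -/
def specI : Prop := ∃ c : ℕ, ∀ (m t : ℕ), 2 ≤ m → ∃ B : ℕ → ℝ, ∀ l : ℕ, 1 ≤ l → l < m →
  0 < B l ∧ ∃ (D : Fin ((Vset (2 * nb m + 2)).card + t) × Fin ((Vset (2 * nb m + 2)).card + t) →
      Graph m → ℝ)
    (P Q : Graph m → Fin ((Vset (2 * nb m + 2)).card + t) → ℤ × ℤ),
    (∀ e, Simple (D e)) ∧
    (∀ x, Placement (c * (m + t + 1) ^ c) (P x)) ∧ (∀ x, Placement (c * (m + t + 1) ^ c) (Q x)) ∧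
    (∀ x e, dst (Q x e.1) (Q x e.2) ≤ D e x ∧ D e x ≤ dst (P x e.1) (P x e.2)) ∧
    (∀ (x : Graph m) (K : Finset (Fin m)), K.card = l + 1 → clq K ≤ x →
      ∃ σ, tourLen (P x) σ ≤ B l) ∧
    ∀ (x : Graph m) (χ : Fin m → Fin l), x ≤ mpt χ → ∀ σ,
      (1 + 1 / (c * (m + t + 1) ^ c : ℝ)) * B l ≤ tourLen (Q x) σ

/-- (MON) monotone circuits -/
def specMON : Prop := ∀ (E : Type) (C : List (Gate E)) (d d' : E → ℝ), (∀ g ∈ C, g.Mono) →
  (∀ e, d e ≤ d' e) → out d C ≤ out d' C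

/-- (F) the final theorem (from CORE, I, MON) -/
def specF : Prop := ∃ (c : ℝ) (k n₀ : ℕ), 0 < c ∧ ∀ n : ℕ, n₀ ≤ n → ∃ B : ℝ, 0 < B ∧
  ∀ C : List (Gate (Fin n × Fin n)), (∀ g ∈ C, g.Mono) →
    Separates C (n ^ k) B (1 / (n : ℝ) ^ k) →
    Real.exp (c * (n : ℝ) ^ (1 / 12 : ℝ)) ≤ C.length

end Pool.Agent.Helper38.MR
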