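import Mathlib

/-! Monotone real circuits for Euclidean TSP: the definitions of the final statement. -/

set_option autoImplicit false

namespace Pool.Agent.Helper38.MR

/-- Euclidean distance between two points of `ℤ²`, as an exact real number. -/
noncomputable def dst (p q : ℤ × ℤ) : ℝ :=
  Real.sqrt (((p.1 - q.1 : ℤ) : ℝ) ^ 2 + ((p.2 - q.2 : ℤ) : ℝ) ^ 2)

/-- Gates of a circuit over the real input variables `E`: an input variable, a real constant, or
a function of the values of the gates number `i` and `j`. -/
inductive Gate (E : Type) : Type
  | input (e : E) : Gate E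
  | const (c : ℝ) : Gate E
  | op (f : ℝ → ℝ → ℝ) (i j : ℕ) : Gate E

/-- The function of the gate is nondecreasing in both arguments. -/
def Gate.Mono {E : Type} : Gate E → Prop
  | .input _ => True
  | .const _ => True
  | .op f _ _ => ∀ a b c d : ℝ, a ≤ b → c ≤ d → f a c ≤ f b d

/-- The value of a gate; `d` gives the values of the input variables, `vals` the values of the
gates before it. -/
noncomputable def Gate.val {E : Type} (d : E → ℝ) (vals : List ℝ) : Gate E → ℝ
  | .input e => d e
  | .const c => c
  | .op f i j => f (vals.getD i 0) (vals.getD j 0)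

/-- The values of all gates of the circuit `C` (a list of gates). -/
noncomputable def run {E : Type} (d : E → ℝ) (C : List (Gate E)) : List ℝ :=
  C.foldl (fun vals g => vals ++ [g.val d vals]) []

/-- The output of a circuit: the value of its last gate. -/
noncomputable def out {E : Type} (d : E → ℝ) (C : List (Gate E)) : ℝ := (run d C).getLastD 0

/-- Exact Euclidean length of the closed tour which visits the points in the order
`σ 0, σ 1, ..., σ (n-1)` and returns to `σ 0`. -/
noncomputable def tourLen {n : ℕ} (P : Fin n → ℤ × ℤ) (σ : Equiv.Perm (Fin n)) : ℝ :=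
  ∑ i, dst (P (σ i)) (P (σ (finRotate n i)))

/-- `n` distinct points of `{0, ..., R}²` -/
def Placement {n : ℕ} (R : ℕ) (P : Fin n → ℤ × ℤ) : Prop :=
  Function.Injective P ∧ ∀ i, 0 ≤ (P i).1 ∧ (P i).1 ≤ R ∧ 0 ≤ (P i).2 ∧ (P i).2 ≤ R

/-- The circuit `C`, whose input variables are the distances of the pairs of points, separates the
placements which have a tour of length at most `B` from the placements all of whose tours have
length at least `(1 + ε) * B`: its output is larger on the latter. -/
def Separates {n : ℕ} (C : List (Gate (Fin n × Fin n))) (R : ℕ) (B ε : ℝ) : Prop :=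
  ∀ P Q : Fin n → ℤ × ℤ, Placement R P → Placement R Q →
    (∃ σ, tourLen P σ ≤ B) → (∀ σ, (1 + ε) * B ≤ tourLen Q σ) →
    out (fun e => dst (P e.1) (P e.2)) C < out (fun e => dst (Q e.1) (Q e.2)) C

end Pool.Agent.Helper38.MR
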