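import Pool.Agent.Helper38.MR.Spec
import Pool.Agent.Helper38.ELP.Asm

set_option autoImplicit false

/-! Module F: the final assembly. -/

namespace Pool.Agent.Helper38.MR

open Pool.Agent.Helper38.ELP (Vset card_le card_ge)

theorem nb_le (m : ℕ) (hm : 1 ≤ m) : nb m ≤ m ^ 2 := by
  unfold nb
  have h1 : m * (m - 1) / 2 ≤ m * (m - 1) := Nat.div_le_self _ _
  have h2 : m + m * (m - 1) = m ^ 2 := by
    obtain ⟨k, rfl⟩ : ∃ k, m = k + 1 := ⟨m - 1, by omega⟩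
    rw [Nat.add_sub_cancel]
    ring
  omega

theorem card_bound (s : ℕ) (hs : 1 ≤ s) :
    (Vset (2 * nb ((4 * s ^ 2 + 1) * (8 * s)) + 2)).card ≤ 2 * 10 ^ 9 * s ^ 12 := by
  have h1 : (4 * s ^ 2 + 1) * (8 * s) ≤ 40 * s ^ 3 := by
    have : 1 ≤ s ^ 2 := Nat.one_le_pow _ _ hs
    calc (4 * s ^ 2 + 1) * (8 * s) ≤ (5 * s ^ 2) * (8 * s) := Nat.mul_le_mul_right _ (by omega)
      _ = 40 * s ^ 3 := by ring
  have h2 : nb ((4 * s ^ 2 + 1) * (8 * s)) ≤ 1600 * s ^ 6 := by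
    refine (nb_le _ ?_).trans ?_
    · have : 0 < (4 * s ^ 2 + 1) * (8 * s) := by positivity
      omega
    · calc ((4 * s ^ 2 + 1) * (8 * s)) ^ 2 ≤ (40 * s ^ 3) ^ 2 := Nat.pow_le_pow_left h1 2
        _ = 1600 * s ^ 6 := by ring
  have h3 := card_le (nb ((4 * s ^ 2 + 1) * (8 * s)))
  refine h3.trans ?_
  have h4 : nb ((4 * s ^ 2 + 1) * (8 * s)) + 2 ≤ 1602 * s ^ 6 := by
    have : 1 ≤ s ^ 6 := Nat.one_le_pow _ _ hs
    omega
  calc 400 * (nb ((4 * s ^ 2 + 1) * (8 * s)) + 2) ^ 2 ≤ 400 * (1602 * s ^ 6) ^ 2 :=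
        Nat.mul_le_mul_left _ (Nat.pow_le_pow_left h4 2)
    _ = 1026561600 * s ^ 12 := by ring
    _ ≤ 2 * 10 ^ 9 * s ^ 12 := Nat.mul_le_mul_right _ (by norm_num)

/-- a threshold between two finite families -/
theorem exists_between {α β : Type} [Fintype α] [Fintype β] (p : α → Prop) (f : α → ℝ) (g : β → ℝ)
    (h : ∀ a, p a → ∀ b, f a < g b) : ∃ θ, (∀ a, p a → f a ≤ θ) ∧ ∀ b, θ < g b := by
  classical
  by_cases hp : ∃ a, p a
  · obtain ⟨a0, ha0⟩ := hp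
    obtain ⟨a, ha, hmax⟩ := Finset.exists_max_image (Finset.univ.filter p) f
      ⟨a0, by simp [ha0]⟩
    rw [Finset.mem_filter] at ha
    exact ⟨f a, fun b hb => hmax b (by simp [hb]), fun b => h a ha.2 b⟩
  · push Not at hp
    by_cases hβ : Nonempty β
    · obtain ⟨b0⟩ := hβ
      obtain ⟨b, _, hmin⟩ := Finset.exists_min_image (Finset.univ : Finset β) g ⟨b0, by simp⟩
      exact ⟨g b - 1, fun a ha => absurd ha (hp a), fun b' => by
        have := hmin b' (by simp)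
        linarith⟩
    · exact ⟨0, fun a ha => absurd ha (hp a), fun b => absurd ⟨b⟩ hβ⟩

theorem Placement.mono {n : ℕ} {R R' : ℕ} (h : R ≤ R') {P : Fin n → ℤ × ℤ} (hP : Placement R P) :
    Placement R' P := by
  refine ⟨hP.1, fun i => ?_⟩
  obtain ⟨a, b, c, d⟩ := hP.2 i
  have : (R : ℤ) ≤ R' := by exact_mod_cast h
  exact ⟨a, b.trans this, c, d.trans this⟩

theorem main_step (hC : specCORE) (hM : specMON) {s n R : ℕ} (hs : 3 ≤ s) {B ε ε' : ℝ}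
    (hB : 0 < B) (hε : ε ≤ ε')
    (D : Fin n × Fin n → Graph ((4 * s ^ 2 + 1) * (8 * s)) → ℝ)
    (P Q : Graph ((4 * s ^ 2 + 1) * (8 * s)) → Fin n → ℤ × ℤ)
    (hD : ∀ e, Simple (D e)) (hP : ∀ x, Placement R (P x)) (hQ : ∀ x, Placement R (Q x))
    (hdom : ∀ x e, dst (Q x e.1) (Q x e.2) ≤ D e x ∧ D e x ≤ dst (P x e.1) (P x e.2))
    (hpos : ∀ (x : Graph _) (K : Finset (Fin ((4 * s ^ 2 + 1) * (8 * s)))),
      K.card = 4 * s ^ 2 + 1 → clq K ≤ x → ∃ σ, tourLen (P x) σ ≤ B)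
    (hneg : ∀ (x : Graph _) (χ : Fin ((4 * s ^ 2 + 1) * (8 * s)) → Fin (4 * s ^ 2)), x ≤ mpt χ →
      ∀ σ, (1 + ε') * B ≤ tourLen (Q x) σ)
    (C : List (Gate (Fin n × Fin n))) (hC1 : ∀ g ∈ C, g.Mono) (hC2 : Separates C R B ε) :
    2 ^ s ≤ 2 * C.length := by
  obtain ⟨θ, h1, h2⟩ := exists_between
    (fun K : Finset (Fin ((4 * s ^ 2 + 1) * (8 * s))) => K.card = 4 * s ^ 2 + 1)
    (fun K => out (fun e => D e (clq K)) C)
    (fun χ : Fin ((4 * s ^ 2 + 1) * (8 * s)) → Fin (4 * s ^ 2) => out (fun e => D e (mpt χ)) C)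
    (fun K hK χ => by
      have a1 := hM _ C (fun e => D e (clq K))
        (fun e => dst (P (clq K) e.1) (P (clq K) e.2)) hC1 (fun e => (hdom (clq K) e).2)
      have a2 := hM _ C (fun e => dst (Q (mpt χ) e.1) (Q (mpt χ) e.2))
        (fun e => D e (mpt χ)) hC1 (fun e => (hdom (mpt χ) e).1)
      have a3 := hC2 (P (clq K)) (Q (mpt χ)) (hP _) (hQ _) (hpos _ K hK le_rfl)
        (fun σ => (mul_le_mul_of_nonneg_right (by linarith) hB.le).trans (hneg _ χ le_rfl σ))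
      exact lt_of_le_of_lt a1 (lt_of_lt_of_le a3 a2))
  exact hC s hs _ C D θ hC1 hD h1 h2

theorem exists_s (n : ℕ) (hn : 2 * 10 ^ 9 * 3 ^ 12 ≤ n) :
    ∃ s, 3 ≤ s ∧ 2 * 10 ^ 9 * s ^ 12 ≤ n ∧ n < 2 * 10 ^ 9 * (s + 1) ^ 12 := by
  classical
  have hex : ∃ k, n < 2 * 10 ^ 9 * (k + 1) ^ 12 := by
    refine ⟨n, ?_⟩
    have : n + 1 ≤ (n + 1) ^ 12 := Nat.le_self_pow (by norm_num) _
    omega
  obtain ⟨s, hs⟩ : ∃ s, s = Nat.find hex := ⟨_, rfl⟩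
  have h1 : n < 2 * 10 ^ 9 * (s + 1) ^ 12 := by rw [hs]; exact Nat.find_spec hex
  have h2 : ∀ k < s, 2 * 10 ^ 9 * (k + 1) ^ 12 ≤ n := by
    intro k hk
    have := Nat.find_min hex (by rw [← hs]; exact hk)
    omega
  have h3 : 3 ≤ s := by
    by_contra hc
    have : (s + 1) ^ 12 ≤ 3 ^ 12 := Nat.pow_le_pow_left (by omega) 12
    omega
  refine ⟨s, h3, ?_, h1⟩
  have := h2 (s - 1) (by omega)
  rwa [Nat.sub_add_cancel (by omega)] at this

theorem exp_bound {s n L : ℕ} (hs : 3 ≤ s) (hn : n < 2 * 10 ^ 9 * (s + 1) ^ 12)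
    (hL : 2 ^ s ≤ 2 * L) : Real.exp (1 / 20 * (n : ℝ) ^ (1 / 12 : ℝ)) ≤ L := by
  have h1 : (n : ℝ) ^ (1 / 12 : ℝ) ≤ 6 * (s + 1) := by
    have h2 : (n : ℝ) ≤ (6 * ((s : ℝ) + 1)) ^ 12 := by
      have : n ≤ (6 * (s + 1)) ^ 12 := by
        rw [mul_pow]
        refine hn.le.trans (Nat.mul_le_mul_right _ (by norm_num))
      exact_mod_cast this
    calc (n : ℝ) ^ (1 / 12 : ℝ) ≤ ((6 * ((s : ℝ) + 1)) ^ 12) ^ (1 / 12 : ℝ) :=
          Real.rpow_le_rpow (by positivity) h2 (by norm_num)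
      _ = 6 * (s + 1) := by
          rw [← Real.rpow_natCast, ← Real.rpow_mul (by positivity)]
          norm_num
  have hs' : (3 : ℝ) ≤ s := by exact_mod_cast hs
  have hlog : (0.6931471803 : ℝ) < Real.log 2 := Real.log_two_gt_d9
  have h3 : 1 / 20 * (n : ℝ) ^ (1 / 12 : ℝ) ≤ ((s : ℝ) - 1) * Real.log 2 := by
    nlinarith
  have hL' : (2 : ℝ) ^ s ≤ 2 * L := by exact_mod_cast hL
  have h4 : Real.exp (((s : ℝ) - 1) * Real.log 2) = 2 ^ s / 2 := by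
    rw [sub_mul, one_mul, Real.exp_sub, Real.exp_log (by norm_num), mul_comm, Real.exp_mul,
      Real.exp_log (by norm_num), Real.rpow_natCast]
  calc Real.exp (1 / 20 * (n : ℝ) ^ (1 / 12 : ℝ)) ≤ Real.exp (((s : ℝ) - 1) * Real.log 2) :=
        Real.exp_le_exp.mpr h3
    _ = 2 ^ s / 2 := h4
    _ ≤ L := by linarith

theorem F (hC : specCORE) (hI : specI) (hM : specMON) : specF := by
  obtain ⟨c, hc⟩ := hI
  -- `c` is positive
  have hc0 : c ≠ 0 := by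
    rintro rfl
    obtain ⟨B, hB⟩ := hc 2 0 le_rfl
    obtain ⟨_, D, P, Q, _, hP, _⟩ := hB 1 le_rfl (by norm_num)
    obtain ⟨hinj, hbox⟩ := hP fun _ => false
    have hcard := card_ge (nb 2)
    have key : ∀ i j, P (fun _ => false) i = P (fun _ => false) j := by
      intro i j
      obtain ⟨a1, a2, a3, a4⟩ := hbox i
      obtain ⟨b1, b2, b3, b4⟩ := hbox j
      simp only [zero_mul, Nat.cast_zero] at a2 a4 b2 b4
      exact Prod.ext (by omega) (by omega)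
    have h01 := hinj (key ⟨0, by omega⟩ ⟨1, by omega⟩)
    simp only [Fin.mk.injEq] at h01
    omega
  refine ⟨1 / 20, 2 * c + 1, 2 * 10 ^ 9 * 3 ^ 12 + c, by norm_num, fun n hn => ?_⟩
  obtain ⟨s, hs, hs1, hs2⟩ := exists_s n (by omega)
  obtain ⟨m, hm⟩ : ∃ m, m = (4 * s ^ 2 + 1) * (8 * s) := ⟨_, rfl⟩
  obtain ⟨t, ht⟩ : ∃ t, n = (Vset (2 * nb m + 2)).card + t := by
    refine ⟨n - (Vset (2 * nb m + 2)).card, ?_⟩
    have := card_bound s (by omega)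
    rw [← hm] at this
    omega
  have hlm : 4 * s ^ 2 < m := by
    rw [hm]
    have : 4 * s ^ 2 + 1 ≤ (4 * s ^ 2 + 1) * (8 * s) := Nat.le_mul_of_pos_right _ (by omega)
    omega
  have hl1 : 1 ≤ 4 * s ^ 2 := by
    have : 1 ≤ s ^ 2 := Nat.one_le_pow _ _ (by omega)
    omega
  have hmn : m ≤ n := by
    rw [hm]
    have h1 : (4 * s ^ 2 + 1) * (8 * s) ≤ 40 * s ^ 3 := by
      have : 1 ≤ s ^ 2 := Nat.one_le_pow _ _ (by omega)
      calc (4 * s ^ 2 + 1) * (8 * s) ≤ (5 * s ^ 2) * (8 * s) := Nat.mul_le_mul_right _ (by omega)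
        _ = 40 * s ^ 3 := by ring
    have h2 : s ^ 3 ≤ s ^ 12 := Nat.pow_le_pow_right (by omega) (by norm_num)
    omega
  have hR : c * (m + t + 1) ^ c ≤ n ^ (2 * c + 1) := by
    have h1 : m + t + 1 ≤ n ^ 2 := by
      have : m + t + 1 ≤ 3 * n := by omega
      have h3 : 3 * n ≤ n * n := Nat.mul_le_mul_right _ (by omega)
      rw [pow_two]
      omega
    calc c * (m + t + 1) ^ c ≤ n * (n ^ 2) ^ c :=
          Nat.mul_le_mul (by omega) (Nat.pow_le_pow_left h1 c)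
      _ = n ^ (2 * c + 1) := by rw [← pow_mul]; ring
  obtain ⟨B, hB⟩ := hc m t (by omega)
  obtain ⟨hB0, D, P, Q, hD, hP, hQ, hdom, hpos, hneg⟩ := hB (4 * s ^ 2) hl1 hlm
  subst hm
  refine ⟨B (4 * s ^ 2), hB0, fun C hC1 hC2 => ?_⟩
  apply exp_bound hs hs2
  subst ht
  refine main_step hC hM hs hB0 ?_ D P Q hD (fun x => (hP x).mono hR) (fun x => (hQ x).mono hR)
    (fun x e => hdom x e) hpos hneg C hC1 hC2
  have hpos2 : (0 : ℝ) < (c * ((4 * s ^ 2 + 1) * (8 * s) + t + 1) ^ c : ℕ) := by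
    have : 0 < c * ((4 * s ^ 2 + 1) * (8 * s) + t + 1) ^ c := by positivity
    exact_mod_cast this
  have h1 : ((c * ((4 * s ^ 2 + 1) * (8 * s) + t + 1) ^ c : ℕ) : ℝ) ≤
      (((Vset (2 * nb ((4 * s ^ 2 + 1) * (8 * s)) + 2)).card + t : ℕ) : ℝ) ^ (2 * c + 1) := by
    exact_mod_cast hR
  push_cast at h1 hpos2 ⊢
  exact one_div_le_one_div_of_le hpos2 h1

end Pool.Agent.Helper38.MR
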