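import Pool.Agent.Helper38.MR.Spec
import Pool.Agent.Helper38.ELP.Cfg
import Pool.Agent.Helper38.TC.A1

set_option autoImplicit false

/-! Module R: the top edges show the bits. -/

namespace Pool.Agent.Helper38.MR

open Pool.Agent.Helper38.ELP
open Pool.Agent.Helper78.ELP (top_side)

theorem lb_tab :
    (foH .LB).testBit (10 * 0 + 1) = true ∧ (foH .LB).testBit (10 * 2 + 1) = true ∧
    (alH .LB).testBit (10 * 0 + 0) = false ∧ (alH .LB).testBit (10 * 0 + 2) = false ∧
    (alH .LB).testBit (10 * 1 + 2) = false ∧ (alH .LB).testBit (10 * 2 + 2) = false ∧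
    (alV .LB).testBit (10 * 2 + 2) = false ∧
    (presM .LB).testBit (10 * 0 + 1) = true ∧ (presM .LB).testBit (10 * 0 + 2) = true ∧
    (presM .LB).testBit (10 * 1 + 2) = true ∧ (presM .LB).testBit (10 * 2 + 2) = true ∧
    (presM .LB).testBit (10 * 1 + 1) = true := by
  decide +kernel

theorem R (h3 : specD3) (h4 : specD4) (h5 : specD5) : specR := by
  intro M uh uv G c hc
  have hA := Pool.Agent.Helper38.TC.A1 h3 h4 h5 M uh uv G (c + 1) (2 * M + 2) (by omega)
    (by omega) le_rfl true
  have hn : ¬ (2 * M + 2 ≤ 2 * (c + 1)) := by omega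
  unfold Pool.Agent.Helper52.TC.mark Pool.Agent.Helper52.TC.us at hA
  simp only [if_neg hn, Bool.false_eq_true, if_false, if_true] at hA
  have hT := top_side h3 G (I := 2 * (c + 1) + 1) (J := 2 * M + 2) (by omega) (by omega) le_rfl
  obtain ⟨I, hI⟩ : ∃ I, I = 2 * (c + 1) + 1 := ⟨_, rfl⟩
  obtain ⟨J, hJ⟩ : ∃ J, J = 2 * M + 3 := ⟨_, rfl⟩
  have hty : ty (2 * M + 2) I J = .LB := by
    rw [hJ]
    exact ty_top_odd (by omega) (by omega)
  obtain ⟨f1, f2, a1, a2, a3, a4, a5, p1, p2, p3, p4, p5⟩ := lb_tab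
  have loc : ∀ (m : Ty → ℕ) (x y : ℕ), x < 10 → y < 10 → rd m (2 * M + 2) (10 * I + x) (10 * J + y) =
      (m .LB).testBit (10 * y + x) := by
    intro m x y hx hy
    rw [rd_loc _ _ _ _ _ _ hx hy, hty]
  have noH : ∀ x y : ℕ, x < 10 → y < 10 → (alH .LB).testBit (10 * y + x) = false →
      uh (10 * I + x) (10 * J + y) = false := by
    intro x y hx hy h
    rw [← Bool.not_eq_true]
    intro hu
    have := G.alwH _ _ hu
    rw [loc _ _ _ hx hy, h] at this
    exact absurd this (by decide)
  have noV : ∀ x y : ℕ, x < 10 → y < 10 → (alV .LB).testBit (10 * y + x) = false →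
      uv (10 * I + x) (10 * J + y) = false := by
    intro x y hx hy h
    rw [← Bool.not_eq_true]
    intro hu
    have := G.alwV _ _ hu
    rw [loc _ _ _ hx hy, h] at this
    exact absurd this (by decide)
  have yesH : ∀ x y : ℕ, x < 10 → y < 10 → (foH .LB).testBit (10 * y + x) = true →
      uh (10 * I + x) (10 * J + y) = true := by
    intro x y hx hy h
    apply G.frcH
    rw [loc _ _ _ hx hy, h]
  have dg : ∀ x y : ℕ, x < 10 → y < 10 → (presM .LB).testBit (10 * y + x) = true →
      (uh (10 * I + x) (10 * J + y)).toNat + (uv (10 * I + x) (10 * J + y)).toNat +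
      (uh (10 * I + x - 1) (10 * J + y)).toNat + (uv (10 * I + x) (10 * J + y - 1)).toNat = 2 := by
    intro x y hx hy h
    have := G.deg (10 * I + x) (10 * J + y) (by unfold pres; rw [loc _ _ _ hx hy, h])
    unfold degU at this
    rw [if_neg (by omega), if_neg (by omega)] at this
    exact this
  have e1 := yesH 1 0 (by omega) (by omega) f1
  have e2 := yesH 1 2 (by omega) (by omega) f2
  have n1 := noH 0 0 (by omega) (by omega) a1
  have n2 := noH 2 0 (by omega) (by omega) a2
  have n3 := noH 2 1 (by omega) (by omega) a3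
  have n4 := noH 2 2 (by omega) (by omega) a4
  have n5 := noV 2 2 (by omega) (by omega) a5
  have g1 := dg 1 0 (by omega) (by omega) p1
  have g2 := dg 2 0 (by omega) (by omega) p2
  have g3 := dg 2 1 (by omega) (by omega) p3
  have g4 := dg 2 2 (by omega) (by omega) p4
  have g5 := dg 1 1 (by omega) (by omega) p5
  have hb : 10 * (2 * M + 2) + 9 = 10 * J - 1 := by omega
  rw [hb, ← hI] at hA
  rw [hb, ← hI] at hT
  have hT1 := hT.1
  simp only [Nat.add_zero] at *
  rw [show 10 * I + 1 - 1 = 10 * I from by omega] at g1 g5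
  rw [show 10 * I + 2 - 1 = 10 * I + 1 from by omega] at g2 g3 g4
  rw [show 10 * J + 1 - 1 = 10 * J from by omega] at g3 g5
  rw [show 10 * J + 2 - 1 = 10 * J + 1 from by omega] at g4
  rw [e1, n1, hT1, hA] at g1
  rw [n2, e1, hA] at g2
  rw [n3] at g3
  rw [n4, n5, e2] at g4
  unfold tK
  simp only
  rw [← hI, ← hJ]
  revert g1 g2 g3 g4 g5
  generalize Pool.Agent.Helper52.TC.rbit uh (c + 1) = b
  generalize uv (10 * I + 1) (10 * J) = u1
  generalize uv (10 * I + 2) (10 * J) = u2
  generalize uv (10 * I + 2) (10 * J + 1) = u3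
  generalize uh (10 * I + 1) (10 * J + 1) = u4
  generalize uv (10 * I + 1) (10 * J + 1) = u5
  generalize uh (10 * I) (10 * J + 1) = u6
  intro g1 g2 g3 g4 g5
  cases b <;> cases u1 <;> simp at g1 <;> cases u2 <;> simp at g2 <;> cases u3 <;>
    simp at g4 <;> cases u4 <;> simp at g3 <;> cases u5 <;> cases u6 <;> simp at g5 ⊢

end Pool.Agent.Helper38.MR
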