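import Pool.Agent.Helper38.MR.R
import Pool.Agent.Helper38.ELP.All
import Pool.Agent.Helper38.TC.A3
import Pool.Agent.Helper68.LP.FromD

set_option autoImplicit false

/-! Module W: weights for an arbitrary quadratic function of the bits. -/

namespace Pool.Agent.Helper38.MR

open Pool.Agent.Helper38.ELP hiding UnitTour
open Pool.Agent.Helper68.LP (pert tcost UnitTour ucost Nb nat2 ucost_ew)
open Pool.Agent.Helper68.ELP (PN cst posN_eq)

theorem sum_ind {ι : Type} [Fintype ι] (V : Finset (ℕ × ℕ)) (u : ℕ → ℕ → Bool)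
    (hV : ∀ x y, u x y = true → (x, y) ∈ V) (f : ι → ℕ × ℕ) (c : ι → ℤ) :
    ∑ p ∈ V, (if u p.1 p.2 = true then ∑ k, (if p = f k then c k else 0) else 0) =
      ∑ k, if u (f k).1 (f k).2 = true then c k else 0 := by
  have h1 : ∀ p ∈ V, (if u p.1 p.2 = true then ∑ k, (if p = f k then c k else 0) else 0) =
      ∑ k, if u p.1 p.2 = true ∧ p = f k then c k else 0 := by
    intro p _
    by_cases h : u p.1 p.2 = true
    · simp [h]
    · simp [h]
  rw [Finset.sum_congr rfl h1, Finset.sum_comm]
  refine Finset.sum_congr rfl fun k _ => ?_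
  by_cases h : u (f k).1 (f k).2 = true
  · rw [if_pos h, Finset.sum_eq_single (f k)]
    · rw [if_pos ⟨h, rfl⟩]
    · intro p _ hp
      rw [if_neg]
      rintro ⟨_, h2⟩
      exact hp h2
    · intro hc
      exact absurd (hV _ _ h) hc
  · rw [if_neg h]
    apply Finset.sum_eq_zero
    intro p _
    rw [if_neg]
    rintro ⟨h2, h3⟩
    rw [h3] at h2
    exact h h2

section

variable (M : ℕ) (W : ℤ)

/-- basic weights -/
def cH (x y : ℕ) : ℤ :=
  if rd foH (2 * M + 2) x y = true then -W
  else if rd alH (2 * M + 2) x y = true then 0 else W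

/-- basic weights -/
def cV (x y : ℕ) : ℤ :=
  if rd foV (2 * M + 2) x y = true then -W
  else if rd alV (2 * M + 2) x y = true then 0 else W

/-- basic cost of a set of used edges -/
def cbase (uh uv : ℕ → ℕ → Bool) : ℤ :=
  ∑ p ∈ Vset (2 * M + 2), ((if uh p.1 p.2 = true then cH M W p.1 p.2 else 0) +
    (if uv p.1 p.2 = true then cV M W p.1 p.2 else 0))

/-- minimal basic cost -/
def c0 : ℤ :=
  ∑ p ∈ Vset (2 * M + 2), ((if rd foH (2 * M + 2) p.1 p.2 = true then -W else 0) +
    (if rd foV (2 * M + 2) p.1 p.2 = true then -W else 0))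

variable {M W}

theorem ctermH (hW : 0 < W) (uh : ℕ → ℕ → Bool) (x y : ℕ) :
    (if rd foH (2 * M + 2) x y = true then -W else 0) ≤
      (if uh x y = true then cH M W x y else 0) ∧
    ((if uh x y = true then cH M W x y else 0) <
      (if rd foH (2 * M + 2) x y = true then -W else 0) + W →
      (uh x y = true → rd alH (2 * M + 2) x y = true) ∧
      (rd foH (2 * M + 2) x y = true → uh x y = true)) := by
  unfold cH
  by_cases h1 : uh x y = true <;> by_cases h2 : rd foH (2 * M + 2) x y = true <;>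
    by_cases h3 : rd alH (2 * M + 2) x y = true <;> simp [h1, h2, h3]
  all_goals first | omega | exact (h3 (foH_ok h2).1).elim

theorem ctermV (hW : 0 < W) (uv : ℕ → ℕ → Bool) (x y : ℕ) :
    (if rd foV (2 * M + 2) x y = true then -W else 0) ≤
      (if uv x y = true then cV M W x y else 0) ∧
    ((if uv x y = true then cV M W x y else 0) <
      (if rd foV (2 * M + 2) x y = true then -W else 0) + W →
      (uv x y = true → rd alV (2 * M + 2) x y = true) ∧
      (rd foV (2 * M + 2) x y = true → uv x y = true)) := by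
  unfold cV
  by_cases h1 : uv x y = true <;> by_cases h2 : rd foV (2 * M + 2) x y = true <;>
    by_cases h3 : rd alV (2 * M + 2) x y = true <;> simp [h1, h2, h3]
  all_goals first | omega | exact (h3 (foV_ok h2).1).elim

theorem cbase_low (hW : 0 < W) (uh uv : ℕ → ℕ → Bool) : c0 M W ≤ cbase M W uh uv ∧
    (cbase M W uh uv < c0 M W + W → ∀ p ∈ Vset (2 * M + 2),
      ((uh p.1 p.2 = true → rd alH (2 * M + 2) p.1 p.2 = true) ∧
        (rd foH (2 * M + 2) p.1 p.2 = true → uh p.1 p.2 = true)) ∧
      ((uv p.1 p.2 = true → rd alV (2 * M + 2) p.1 p.2 = true) ∧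
        (rd foV (2 * M + 2) p.1 p.2 = true → uv p.1 p.2 = true))) := by
  have h1 : c0 M W ≤ cbase M W uh uv :=
    Finset.sum_le_sum fun p _ => add_le_add (ctermH hW uh p.1 p.2).1 (ctermV hW uv p.1 p.2).1
  refine ⟨h1, fun hlt p hp => ?_⟩
  have h2 : ((if uh p.1 p.2 = true then cH M W p.1 p.2 else 0) +
      (if uv p.1 p.2 = true then cV M W p.1 p.2 else 0)) -
      ((if rd foH (2 * M + 2) p.1 p.2 = true then -W else 0) +
      (if rd foV (2 * M + 2) p.1 p.2 = true then -W else 0)) ≤
      cbase M W uh uv - c0 M W := by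
    unfold cbase c0
    rw [← Finset.sum_sub_distrib]
    exact Finset.single_le_sum (f := fun p : ℕ × ℕ =>
      ((if uh p.1 p.2 = true then cH M W p.1 p.2 else 0) +
      (if uv p.1 p.2 = true then cV M W p.1 p.2 else 0)) -
      ((if rd foH (2 * M + 2) p.1 p.2 = true then -W else 0) +
      (if rd foV (2 * M + 2) p.1 p.2 = true then -W else 0)))
      (fun q _ => sub_nonneg.mpr (add_le_add (ctermH hW uh q.1 q.2).1 (ctermV hW uv q.1 q.2).1)) hp
  have h3 := (ctermH (M := M) hW uh p.1 p.2).1
  have h4 := (ctermV (M := M) hW uv p.1 p.2).1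
  exact ⟨(ctermH hW uh p.1 p.2).2 (by linarith), (ctermV hW uv p.1 p.2).2 (by linarith)⟩

theorem cbase_good {uh uv : ℕ → ℕ → Bool} (hg : Good (2 * M + 2) uh uv) :
    cbase M W uh uv = c0 M W := by
  unfold cbase c0
  refine Finset.sum_congr rfl fun p _ => ?_
  have h1 := hg.alwH p.1 p.2
  have h2 := hg.frcH p.1 p.2
  have h3 := hg.alwV p.1 p.2
  have h4 := hg.frcV p.1 p.2
  unfold cH cV
  congr 1
  · by_cases g1 : uh p.1 p.2 = true <;> by_cases g2 : rd foH (2 * M + 2) p.1 p.2 = true
    · simp [g1, g2]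
    · simp [g1, g2, h1 g1]
    · exact absurd (h2 g2) g1
    · simp [g1, g2]
  · by_cases g1 : uv p.1 p.2 = true <;> by_cases g2 : rd foV (2 * M + 2) p.1 p.2 = true
    · simp [g1, g2]
    · simp [g1, g2, h3 g1]
    · exact absurd (h4 g2) g1
    · simp [g1, g2]

end

section

variable {M : ℕ} (lin : Fin M → ℤ) (quad : Fin M → Fin M → ℤ) (W : ℤ)

/-- horizontal weights -/
def wh (x y : ℕ) : ℤ := cH M W x y + ∑ k : Fin M, if (x, y) = eK k then lin k else 0

/-- vertical weights -/
def wv (x y : ℕ) : ℤ := cV M W x y +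
  ∑ k : Fin M × Fin M, if (x, y) = rK k.1 k.2 then (if k.1 < k.2 then quad k.1 k.2 else 0) else 0

/-- the reading part of the weight of a configuration -/
def rpart (top : Fin M → ℤ) (uh uv : ℕ → ℕ → Bool) : ℤ :=
  (∑ k : Fin M, if uh (eK k).1 (eK k).2 = true then lin k else 0) +
  (∑ k : Fin M × Fin M, if uv (rK k.1 k.2).1 (rK k.1 k.2).2 = true then
    (if k.1 < k.2 then quad k.1 k.2 else 0) else 0) +
  ∑ k : Fin M, if uv (tK M k).1 (tK M k).2 = true then top k else 0

/-- unit tours in the sense of ELP -/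
theorem unit_posN {N : ℕ} {σ : Equiv.Perm (Fin (Vset N).card)} (h : UnitTour (PN N) σ) :
    Pool.Agent.Helper38.ELP.UnitTour (posN N) σ := by
  intro i
  have hi := h i
  unfold Nb at hi
  unfold UnitStep
  have e : ∀ j, posN N j = (((PN N j).1 : ℤ), ((PN N j).2 : ℤ)) := fun j => rfl
  rw [e, e]
  simp only
  rcases hi with ⟨a, b⟩ | ⟨a, b⟩ | ⟨a, b⟩ | ⟨a, b⟩
  · rw [a, b]; push_cast; ring
  · rw [a, b]; push_cast; ring
  · rw [a, b]; push_cast; ring
  · rw [a, b]; push_cast; ring

theorem unit_PN {N : ℕ} {σ : Equiv.Perm (Fin (Vset N).card)}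
    (h : Pool.Agent.Helper38.ELP.UnitTour (posN N) σ) : UnitTour (PN N) σ :=
  Pool.Agent.Helper68.ELP.unit_nb h

/-- total weight of a unit tour -/
theorem tcost_eq (top : Fin M → ℤ) (K : ℤ) (σ : Equiv.Perm (Fin (Vset (2 * M + 2)).card))
    (hu : UnitTour (PN (2 * M + 2)) σ) :
    tcost (wh lin W) (addTop (wv quad W) top) K (PN (2 * M + 2)) σ =
      cbase M W (useH (posN (2 * M + 2)) σ) (useV (posN (2 * M + 2)) σ) +
      rpart lin quad top (useH (posN (2 * M + 2)) σ) (useV (posN (2 * M + 2)) σ) := by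
  have hu' := unit_posN hu
  have h1 : tcost (wh lin W) (addTop (wv quad W) top) K (PN (2 * M + 2)) σ =
      tourW (fun x y => wh lin W x.toNat y.toNat)
        (fun x y => addTop (wv quad W) top x.toNat y.toNat) (posN (2 * M + 2)) σ := by
    unfold tcost tourW
    refine Finset.sum_congr rfl fun i _ => ?_
    have hn := hu i
    have key := ucost_ew (fun x y => wh lin W x.toNat y.toNat)
        (fun x y => addTop (wv quad W) top x.toNat y.toNat) K
        (p := posN (2 * M + 2) (σ i)) (q := posN (2 * M + 2) (σ (finRotate _ i)))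
        (by unfold posN; simp) (by unfold posN; simp)
        (by
          have e : ∀ j, nat2 (posN (2 * M + 2) j) = PN (2 * M + 2) j := by
            intro j
            unfold nat2 posN PN
            simp
          rw [e, e]
          exact hn)
    have e : ∀ j, nat2 (posN (2 * M + 2) j) = PN (2 * M + 2) j := by
      intro j
      unfold nat2 posN PN
      simp
    rw [e, e] at key
    rw [← key]
    simp only [Int.toNat_natCast]
  rw [h1, Pool.Agent.Helper68.ELP.d2 _ σ _ _ (card_ge M) hu']
  unfold cbase rpart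
  rw [← sum_ind (Vset (2 * M + 2)) _ (useH_mem σ) (fun k : Fin M => eK k) lin,
    ← sum_ind (Vset (2 * M + 2)) _ (useV_mem σ) (fun k : Fin M × Fin M => rK k.1 k.2)
      (fun k => if k.1 < k.2 then quad k.1 k.2 else 0),
    ← sum_ind (Vset (2 * M + 2)) _ (useV_mem σ) (fun k : Fin M => tK M k) top,
    ← Finset.sum_add_distrib, ← Finset.sum_add_distrib, ← Finset.sum_add_distrib]
  refine Finset.sum_congr rfl fun p _ => ?_
  simp only [Int.toNat_natCast]
  unfold addTop wh wv
  by_cases g1 : useH (posN (2 * M + 2)) σ p.1 p.2 = true <;>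
    by_cases g2 : useV (posN (2 * M + 2)) σ p.1 p.2 = true <;> (simp [g1, g2]; try ring)

/-- the reading part of a good configuration -/
theorem rpart_good (top : Fin M → ℤ) {uh uv : ℕ → ℕ → Bool} (hg : Good (2 * M + 2) uh uv) :
    rpart lin quad top uh uv =
      value lin quad top (fun k => uh (eK k).1 (eK k).2) := by
  unfold rpart value
  have hb : ∀ k : ℕ, uh (eK k).1 (eK k).2 = Pool.Agent.Helper52.TC.rbit uh (k + 1) := fun k => rfl
  congr 1
  · congr 1
    rw [Fintype.sum_prod_type]
    refine Finset.sum_congr rfl fun k _ => Finset.sum_congr rfl fun l _ => ?_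
    by_cases hkl : k < l
    · have h := D6 M _ _ hg (k + 1) (l + 1) (by omega)
        (by have := Fin.lt_def.mp hkl; omega) (by have := l.2; omega)
      have e : uv (rK k l).1 (rK k l).2 =
          (uh (eK k).1 (eK k).2 && uh (eK l).1 (eK l).2) := h
      rw [e]
      by_cases g1 : uh (eK k).1 (eK k).2 = true <;> by_cases g2 : uh (eK l).1 (eK l).2 = true <;>
        simp [hkl, g1, g2]
    · simp [hkl]
  · refine Finset.sum_congr rfl fun k _ => ?_
    have h := R Pool.Agent.Helper9.ELP.d3 Pool.Agent.Helper78.ELP.d4 D5 M uh uv hg k k.2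
    rw [h]
    simp only [hb]
    cases Pool.Agent.Helper52.TC.rbit uh (k + 1) <;> simp

variable {lin quad} {w : ℕ}

theorem sum_abs_le {ι : Type} (s : Finset ι) (f : ι → ℤ) (c : ℤ) (hf : ∀ i, |f i| ≤ c) :
    |∑ i ∈ s, f i| ≤ s.card * c := by
  calc |∑ i ∈ s, f i| ≤ ∑ i ∈ s, |f i| := Finset.abs_sum_le_sum_abs _ _
    _ ≤ ∑ _i ∈ s, c := Finset.sum_le_sum fun i _ => hf i
    _ = s.card * c := by simp

theorem rpart_low (hl : ∀ k, |lin k| ≤ w) (hq : ∀ k l, |quad k l| ≤ w) (top : Fin M → ℤ)
    (ht : ∀ c, 0 ≤ top c ∧ top c ≤ 1) (uh uv : ℕ → ℕ → Bool) :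
    -(((w : ℤ) + 1) * ((M : ℤ) + 1) ^ 2) ≤ rpart lin quad top uh uv := by
  unfold rpart
  have h1 := sum_abs_le (Finset.univ : Finset (Fin M))
    (fun k => if uh (eK k).1 (eK k).2 = true then lin k else 0) w
    (fun k => by split_ifs; exact hl k; simp)
  have h2 := sum_abs_le (Finset.univ : Finset (Fin M × Fin M))
    (fun k => if uv (rK k.1 k.2).1 (rK k.1 k.2).2 = true then
    (if k.1 < k.2 then quad k.1 k.2 else 0) else 0) w
    (fun k => by split_ifs; exact hq _ _; simp; simp)
  have h3 : 0 ≤ ∑ k : Fin M, if uv (tK M k).1 (tK M k).2 = true then top k else 0 :=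
    Finset.sum_nonneg fun k _ => by split_ifs; exact (ht k).1; exact le_rfl
  rw [Finset.card_univ, Fintype.card_fin] at h1
  rw [Finset.card_univ, Fintype.card_prod, Fintype.card_fin] at h2
  rw [abs_le] at h1 h2
  push_cast at h2
  have hw : (0 : ℤ) ≤ w := by positivity
  have hM : (0 : ℤ) ≤ M := by positivity
  nlinarith [h1.1, h2.1, mul_nonneg hw hM, mul_nonneg hM hM]

theorem value_high (hl : ∀ k, |lin k| ≤ w) (hq : ∀ k l, |quad k l| ≤ w) (top : Fin M → ℤ)
    (ht : ∀ c, 0 ≤ top c ∧ top c ≤ 1) (β : Fin M → Bool) :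
    value lin quad top β ≤ ((w : ℤ) + 1) * ((M : ℤ) + 1) ^ 2 := by
  unfold value
  have h1 := sum_abs_le (Finset.univ : Finset (Fin M))
    (fun k => if β k = true then lin k else 0) w
    (fun k => by split_ifs; exact hl k; simp)
  have h2 := sum_abs_le (Finset.univ : Finset (Fin M × Fin M))
    (fun k => if k.1 < k.2 ∧ β k.1 = true ∧ β k.2 = true then quad k.1 k.2 else 0) w
    (fun k => by split_ifs; exact hq _ _; simp)
  have h3 := sum_abs_le (Finset.univ : Finset (Fin M))
    (fun k => if β k = false then top k else 0) 1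
    (fun k => by
      split_ifs
      · rw [abs_le]; exact ⟨by linarith [(ht k).1], (ht k).2⟩
      · simp)
  rw [Fintype.sum_prod_type] at h2
  rw [Finset.card_univ, Fintype.card_fin] at h1 h3
  rw [Finset.card_univ, Fintype.card_prod, Fintype.card_fin] at h2
  rw [abs_le] at h1 h2 h3
  push_cast at h2
  have hw : (0 : ℤ) ≤ w := by positivity
  have hM : (0 : ℤ) ≤ M := by positivity
  nlinarith [h1.2, h2.2, h3.2, mul_nonneg hw hM, mul_nonneg hM hM]

theorem ind_sum_le {ι : Type} [Fintype ι] [DecidableEq ι] (f : ι → ℕ × ℕ)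
    (c : ι → ℤ) (b : ℤ) (hb : 0 ≤ b) (p : ℕ × ℕ)
    (hf : ∀ i j, c i ≠ 0 → c j ≠ 0 → f i = f j → i = j)
    (hc : ∀ i, |c i| ≤ b) : |∑ k, if p = f k then c k else 0| ≤ b := by
  by_cases h : ∃ k, p = f k ∧ c k ≠ 0
  · obtain ⟨k, hk, hck⟩ := h
    rw [Finset.sum_eq_single k]
    · rw [if_pos hk]; exact hc k
    · intro j _ hj
      by_cases hp : p = f j
      · rw [if_pos hp]
        by_contra hcj
        exact hj (hf j k hcj hck (hp.symm.trans hk))
      · rw [if_neg hp]
    · intro hh; exact absurd (Finset.mem_univ k) hh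
  · rw [Finset.sum_eq_zero, abs_zero]
    · exact hb
    · intro k _
      by_cases hp : p = f k
      · rw [if_pos hp]
        by_contra hck
        exact h ⟨k, hp, hck⟩
      · rw [if_neg hp]

theorem wh_le (hW : 0 ≤ W) (hl : ∀ k, |lin k| ≤ w) (x y : ℕ) : |wh lin W x y| ≤ W + w := by
  unfold wh
  have h1 : |cH M W x y| ≤ W := by
    unfold cH
    split_ifs
    · rw [abs_neg, abs_of_nonneg hW]
    · simpa using hW
    · rw [abs_of_nonneg hW]
  have h2 := ind_sum_le (fun k : Fin M => eK k) lin w (by positivity) (x, y)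
    (fun i j _ _ h => by
      simp only [eK, Prod.mk.injEq, true_and] at h
      exact Fin.ext (by omega)) hl
  exact (abs_add_le _ _).trans (add_le_add h1 h2)

theorem wv_le (hW : 0 ≤ W) (hq : ∀ k l, |quad k l| ≤ w) (x y : ℕ) :
    |wv quad W x y| ≤ W + w := by
  unfold wv
  have h1 : |cV M W x y| ≤ W := by
    unfold cV
    split_ifs
    · rw [abs_neg, abs_of_nonneg hW]
    · simpa using hW
    · rw [abs_of_nonneg hW]
  have h2 := ind_sum_le (fun k : Fin M × Fin M => rK k.1 k.2)
    (fun k => if k.1 < k.2 then quad k.1 k.2 else 0) w (by positivity) (x, y)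
    (fun i j _ _ h => by
      simp only [rK, Prod.mk.injEq] at h
      exact Prod.ext (Fin.ext (by omega)) (Fin.ext (by omega)))
    (fun k => by split_ifs; exact hq _ _; simp)
  exact (abs_add_le _ _).trans (add_le_add h1 h2)

theorem addTop_le {v : ℕ → ℕ → ℤ} {b : ℤ} (hv : ∀ x y, |v x y| ≤ b) (top : Fin M → ℤ)
    (ht : ∀ c, 0 ≤ top c ∧ top c ≤ 1) (x y : ℕ) : |addTop v top x y| ≤ b + 1 := by
  unfold addTop
  have h2 := ind_sum_le (fun k : Fin M => tK M k) top 1 (by norm_num) (x, y)
    (fun i j _ _ h => by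
      simp only [tK, Prod.mk.injEq] at h
      exact Fin.ext (by omega))
    (fun k => by rw [abs_le]; exact ⟨by linarith [(ht k).1], (ht k).2⟩)
  exact (abs_add_le _ _).trans (add_le_add (hv x y) h2)

theorem ucost_ge {h v : ℕ → ℕ → ℤ} {b K : ℤ} (hh : ∀ x y, |h x y| ≤ b) (hv : ∀ x y, |v x y| ≤ b)
    (hK : -b ≤ K) (p q : ℕ × ℕ) : -b ≤ ucost h v K p q := by
  unfold ucost
  split_ifs
  · exact (abs_le.mp (hh _ _)).1
  · exact (abs_le.mp (hh _ _)).1
  · exact (abs_le.mp (hv _ _)).1
  · exact (abs_le.mp (hv _ _)).1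
  · exact hK

end

theorem W : specW := by
  intro M w lin quad hM hl hq
  classical
  obtain ⟨W, hWd⟩ : ∃ W : ℤ, W = 2 * (((w : ℤ) + 1) * ((M : ℤ) + 1) ^ 2) := ⟨_, rfl⟩
  have hw : (0 : ℤ) ≤ w := by positivity
  have hM0 : (1 : ℤ) ≤ M := by exact_mod_cast hM
  have hp1 : (w : ℤ) + 1 ≤ ((w : ℤ) + 1) * ((M : ℤ) + 1) ^ 2 := by
    have : (1 : ℤ) ≤ ((M : ℤ) + 1) ^ 2 := by nlinarith
    nlinarith
  have hW : 0 < W := by rw [hWd]; linarith
  have hWw : W + w ≤ 3 * (((w : ℤ) + 1) * ((M : ℤ) + 1) ^ 2) := by rw [hWd]; linarith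
  refine ⟨wh lin W, wv quad W, c0 M W, ?_, ?_, ?_⟩
  · intro x y
    refine (wh_le W hW.le hl x y).trans (hWw.trans ?_)
    nlinarith
  · intro x y
    refine (wv_le W hW.le hq x y).trans (hWw.trans ?_)
    nlinarith
  · intro top ht K hK
    constructor
    · intro β
      obtain ⟨b, hb⟩ : ∃ b : ℕ → Bool, b = fun c => if h : 1 ≤ c ∧ c ≤ M then β ⟨c - 1, by omega⟩
        else decide (c = M + 1) := ⟨_, rfl⟩
      have b0 : b 0 = false := by rw [hb]; simp
      have b1 : b (M + 1) = true := by rw [hb]; simp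
      obtain ⟨σ, hu, hH, hV⟩ := D10 M b b0 b1
      obtain ⟨q1, q2, q3, q4, _⟩ := Pool.Agent.Helper68.ELP.d8 M b b0 b1
      obtain ⟨hd, hc⟩ := Pool.Agent.Helper68.ELP.d1 _ σ (card_ge M) hu
      have hg : Good (2 * M + 2) (useH (posN (2 * M + 2)) σ) (useV (posN (2 * M + 2)) σ) := by
        exact {
          alwH := fun x y h => by rw [hH] at h; exact (q1 x y h).1
          alwV := fun x y h => by rw [hV] at h; exact (q2 x y h).1
          frcH := fun x y h => by rw [hH]; exact q3 x y h
          frcV := fun x y h => by rw [hV]; exact q4 x y h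
          deg := hd
          nocyc := hc }
      have hu2 : UnitTour (PN (2 * M + 2)) σ := unit_PN hu
      refine ⟨σ, hu2, ?_⟩
      rw [tcost_eq lin quad W top K σ hu2, cbase_good hg, rpart_good lin quad top hg]
      congr 1
      have hβ : (fun k : Fin M => useH (posN (2 * M + 2)) σ (eK k).1 (eK k).2) = β := by
        funext k
        rw [hH]
        have e : uH (2 * M + 2) b (eK k).1 (eK k).2 =
            Pool.Agent.Helper52.TC.rbit (uH (2 * M + 2) b) (k + 1) := rfl
        rw [e, Pool.Agent.Helper38.TC.rbit_uH b0 b1 (by omega) (by have := k.2; omega), hb]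
        simp only
        rw [dif_pos ⟨by omega, by have := k.2; omega⟩]
        simp
      rw [hβ]
    · intro σ
      by_cases hu : UnitTour (PN (2 * M + 2)) σ
      · rw [tcost_eq lin quad W top K σ hu]
        by_cases hlt : cbase M W (useH (posN (2 * M + 2)) σ) (useV (posN (2 * M + 2)) σ) <
            c0 M W + W
        · have hu' := unit_posN hu
          obtain ⟨hd, hc⟩ := Pool.Agent.Helper68.ELP.d1 _ σ (card_ge M) hu'
          have hb := (cbase_low hW _ _).2 hlt
          have hg : Good (2 * M + 2) (useH (posN (2 * M + 2)) σ) (useV (posN (2 * M + 2)) σ) := by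
            exact {
              alwH := fun x y h => (hb (x, y) (useH_mem σ x y h)).1.1 h
              alwV := fun x y h => (hb (x, y) (useV_mem σ x y h)).2.1 h
              frcH := fun x y h => (hb (x, y) (mem_Vset.mpr (foH_ok h).2)).1.2 h
              frcV := fun x y h => (hb (x, y) (mem_Vset.mpr (foV_ok h).2)).2.2 h
              deg := hd
              nocyc := hc }
          refine ⟨fun k => useH (posN (2 * M + 2)) σ (eK k).1 (eK k).2, le_of_eq ?_⟩
          rw [cbase_good hg, rpart_good lin quad top hg]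
        · refine ⟨fun _ => false, ?_⟩
          have h1 := value_high hl hq top ht (fun _ => false)
          have h2 := rpart_low hl hq top ht (useH (posN (2 * M + 2)) σ) (useV (posN (2 * M + 2)) σ)
          have h3 := not_lt.mp hlt
          linarith
      · refine ⟨fun _ => false, ?_⟩
        have h1 := value_high hl hq top ht (fun _ => false)
        -- some step is not a unit step
        have hex : ∃ i, ¬ Nb (PN (2 * M + 2) (σ i)) (PN (2 * M + 2) (σ (finRotate _ i))) := by
          by_contra hc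
          push Not at hc
          exact hu hc
        obtain ⟨i, hi⟩ := hex
        obtain ⟨bd, hbd⟩ : ∃ bd : ℤ, bd = W + w + 1 := ⟨_, rfl⟩
        have hh : ∀ x y, |wh lin W x y| ≤ bd := fun x y =>
          (wh_le W hW.le hl x y).trans (by rw [hbd]; linarith)
        have hv : ∀ x y, |addTop (wv quad W) top x y| ≤ bd := fun x y => by
          rw [hbd]
          exact addTop_le (wv_le W hW.le hq) top ht x y
        have hbd4 : bd ≤ 4 * (((w : ℤ) + 1) * ((M : ℤ) + 1) ^ 2) := by rw [hbd]; linarith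
        have hbd0 : 0 ≤ bd := by rw [hbd]; linarith
        have hX : ((w : ℤ) + 1) * ((M : ℤ) + 1) ^ 2 ≤ ((w : ℤ) + 1) * ((M : ℤ) + 1) ^ 4 := by
          have : ((M : ℤ) + 1) ^ 2 ≤ ((M : ℤ) + 1) ^ 4 := by
            apply pow_le_pow_right₀ <;> [linarith; norm_num]
          exact mul_le_mul_of_nonneg_left this (by linarith)
        have hK0 : -bd ≤ K := by nlinarith
        have hge : K - ((Vset (2 * M + 2)).card : ℤ) * bd ≤
            tcost (wh lin W) (addTop (wv quad W) top) K (PN (2 * M + 2)) σ := by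
          unfold tcost
          rw [← Finset.add_sum_erase _ _ (Finset.mem_univ i)]
          have e1 : ucost (wh lin W) (addTop (wv quad W) top) K (PN (2 * M + 2) (σ i))
              (PN (2 * M + 2) (σ (finRotate _ i))) = K := Pool.Agent.Helper68.LP.ucost_not hi
          rw [e1]
          have e2 : -(((Vset (2 * M + 2)).card : ℤ) * bd) ≤
              ∑ j ∈ Finset.univ.erase i, ucost (wh lin W) (addTop (wv quad W) top) K
                (PN (2 * M + 2) (σ j)) (PN (2 * M + 2) (σ (finRotate _ j))) := by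
            have e3 := Finset.card_nsmul_le_sum (Finset.univ.erase i)
              (fun j => ucost (wh lin W) (addTop (wv quad W) top) K
                (PN (2 * M + 2) (σ j)) (PN (2 * M + 2) (σ (finRotate _ j)))) (-bd)
              (fun j _ => ucost_ge hh hv hK0 _ _)
            refine le_trans ?_ e3
            rw [nsmul_eq_mul]
            have e4 : ((Finset.univ.erase i).card : ℤ) ≤ (Vset (2 * M + 2)).card := by
              have : (Finset.univ.erase i).card ≤ (Vset (2 * M + 2)).card := by
                have := Finset.card_erase_le (s := (Finset.univ : Finset (Fin (Vset (2 * M + 2)).card)))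
                  (a := i)
                rwa [Finset.card_univ, Fintype.card_fin] at this
              exact_mod_cast this
            nlinarith
          linarith
        have hcard : ((Vset (2 * M + 2)).card : ℤ) ≤ 400 * ((M : ℤ) + 2) ^ 2 := by
          exact_mod_cast card_le M
        have hcard2 : ((Vset (2 * M + 2)).card : ℤ) ≤ 900 * ((M : ℤ) + 1) ^ 2 := by nlinarith
        have hm0 : c0 M W ≤ 0 := by
          unfold c0
          apply Finset.sum_nonpos
          intro p _
          split_ifs <;> linarith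
        have hprod : ((Vset (2 * M + 2)).card : ℤ) * bd ≤
            3600 * (((w : ℤ) + 1) * ((M : ℤ) + 1) ^ 4) := by
          calc ((Vset (2 * M + 2)).card : ℤ) * bd ≤
              (900 * ((M : ℤ) + 1) ^ 2) * (4 * (((w : ℤ) + 1) * ((M : ℤ) + 1) ^ 2)) :=
                mul_le_mul hcard2 hbd4 hbd0 (by positivity)
            _ = 3600 * (((w : ℤ) + 1) * ((M : ℤ) + 1) ^ 4) := by ring
        nlinarith

end Pool.Agent.Helper38.MR
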